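import Pool.Agent.R888.QR.QFin

/-!
# MP_768c9c_nt: Q1 fails if `ζ` has no zeros far to the right of the critical line
-/

set_option autoImplicit false

namespace Pool.Agent.Results.MP_768c9c_nt.ZeroFreeStrip

open Filter Topology

/-- `f` (only its values at `n ≥ 1` matter) is completely multiplicative, and the series `∑ f(n)`
converges with sum `0` -/
structure IsCMO (f : ℕ → ℂ) : Prop where
  one : f 1 = 1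
  mul : ∀ m n : ℕ, 0 < m → 0 < n → f (m * n) = f m * f n
  sum_zero : Tendsto (fun N : ℕ => ∑ n ∈ Finset.Icc 1 N, f n) atTop (𝓝 0)

/-- Q1: `S_f(N) = Ω(N^(-1/2))` for every CMO function `f` -/
def Q1 : Prop := ∀ f : ℕ → ℂ, IsCMO f → ∃ c : ℝ, 0 < c ∧ ∀ M : ℕ, ∃ N : ℕ, M ≤ N ∧ 0 < N ∧
  c / Real.sqrt (N : ℝ) ≤ ‖∑ n ∈ Finset.Icc 1 N, f n‖

theorem not_q1 (h : ∃ f : ℕ → ℂ, IsCMO f ∧ ∃ c C : ℝ, 0 < c ∧ 0 < C ∧
    ∀ N : ℕ, 1 ≤ N → ‖∑ n ∈ Finset.Icc 1 N, f n‖ ≤ C * (N : ℝ) ^ (-(1 / 2 : ℝ) - c)) : ¬ Q1 := by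
  intro hQ
  obtain ⟨f, hf, c, C, hc, hC, hb⟩ := h
  obtain ⟨c', hc', h⟩ := hQ f hf
  have h3 : Tendsto (fun x : ℝ => C * x ^ (-c)) atTop (𝓝 (C * 0)) :=
    (tendsto_rpow_neg_atTop hc).const_mul C
  rw [mul_zero] at h3
  have h4 := (h3.comp tendsto_natCast_atTop_atTop).eventually (gt_mem_nhds hc')
  obtain ⟨M, hM⟩ := eventually_atTop.1 h4
  obtain ⟨N, hMN, hN, hlow⟩ := h M
  have h5 := hM N hMN
  simp only [Function.comp] at h5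
  have hN0 : (0 : ℝ) < N := by exact_mod_cast hN
  have h6 := hb N hN
  have h7 : (N : ℝ) ^ (-(1 / 2 : ℝ) - c) = (Real.sqrt N)⁻¹ * (N : ℝ) ^ (-c) := by
    rw [sub_eq_add_neg, Real.rpow_add hN0, Real.rpow_neg hN0.le, ← Real.sqrt_eq_rpow]
  rw [h7] at h6
  have h8 : (0 : ℝ) < (Real.sqrt N)⁻¹ := by
    have := Real.sqrt_pos.2 hN0
    positivity
  rw [div_eq_mul_inv] at hlow
  have h9 : c' * (Real.sqrt N)⁻¹ ≤ (C * (N : ℝ) ^ (-c)) * (Real.sqrt N)⁻¹ := by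
    refine (hlow.trans h6).trans (le_of_eq ?_)
    ring
  have h10 := le_of_mul_le_mul_right h9 h8
  linarith

/-- There is `θ > 1/2` such that Q1 fails, with a power saving, if `ζ` has no zeros in the strip
`θ < Re s < 1`; in particular if the Riemann hypothesis holds. -/
theorem result : ∃ θ : ℝ, 1 / 2 < θ ∧ θ < 1 ∧
    ((∀ s : ℂ, θ < s.re → s.re < 1 → riemannZeta s ≠ 0) →
      (∃ f : ℕ → ℂ, IsCMO f ∧ ∃ c C : ℝ, 0 < c ∧ 0 < C ∧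
        ∀ N : ℕ, 1 ≤ N → ‖∑ n ∈ Finset.Icc 1 N, f n‖ ≤ C * (N : ℝ) ^ (-(1 / 2 : ℝ) - c)) ∧
      ¬ Q1) := by
  obtain ⟨θ, h1, h2, h3⟩ := Pool.Agent.R888.QR.concl_of_zeroFree
  refine ⟨θ, h1, h2, fun hz => ?_⟩
  have h : ∃ f : ℕ → ℂ, IsCMO f ∧ ∃ c C : ℝ, 0 < c ∧ 0 < C ∧
      ∀ N : ℕ, 1 ≤ N → ‖∑ n ∈ Finset.Icc 1 N, f n‖ ≤ C * (N : ℝ) ^ (-(1 / 2 : ℝ) - c) := by
    obtain ⟨f, a1, a2, a3, a4⟩ := h3 hz
    exact ⟨f, ⟨a1, a2, a3⟩, a4⟩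
  exact ⟨h, not_q1 h⟩

end Pool.Agent.Results.MP_768c9c_nt.ZeroFreeStrip
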